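import Mathlib

open MeasureTheory Set

namespace Pool.Agent.Helper190H

variable {Ω : Type*} [MeasurableSpace Ω] {ν : Measure Ω}

/-- Total variation against the affinity. -/
theorem tv_le {A B : Ω → ℝ} (hA0 : ∀ x, 0 ≤ A x) (hB0 : ∀ x, 0 ≤ B x)
    (hAm : Measurable A) (hBm : Measurable B)
    (hA : Integrable A ν) (hB : Integrable B ν) (hA1 : ∫ x, A x ∂ν = 1) (hB1 : ∫ x, B x ∂ν = 1) :
    0 ≤ ∫ x, √(A x) * √(B x) ∂ν ∧ ∫ x, √(A x) * √(B x) ∂ν ≤ 1 ∧
    Integrable (fun x => √(A x) * √(B x)) ν ∧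
    (∫ x, |A x - B x| ∂ν) ^ 2 ≤ 4 * (1 - (∫ x, √(A x) * √(B x) ∂ν) ^ 2) := by
  have hi : Integrable (fun x => √(A x) * √(B x)) ν := by
    refine Integrable.mono' (hA.add hB) (by fun_prop) (Filter.Eventually.of_forall fun x => ?_)
    rw [Real.norm_eq_abs, abs_of_nonneg (by positivity)]
    simp only [Pi.add_apply]
    nlinarith [Real.sq_sqrt (hA0 x), Real.sq_sqrt (hB0 x), sq_nonneg (√(A x) - √(B x)),
      hA0 x, hB0 x]
  have h0 : 0 ≤ ∫ x, √(A x) * √(B x) ∂ν := integral_nonneg fun x => by positivity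
  set ρ := ∫ x, √(A x) * √(B x) ∂ν with hρ
  have hU : Integrable (fun x => (√(A x) - √(B x)) ^ 2) ν := by
    have : (fun x => (√(A x) - √(B x)) ^ 2) = fun x => A x + B x - 2 * (√(A x) * √(B x)) := by
      funext x
      nlinarith [Real.sq_sqrt (hA0 x), Real.sq_sqrt (hB0 x)]
    rw [this]
    exact (hA.add hB).sub (hi.const_mul 2)
  have hV : Integrable (fun x => (√(A x) + √(B x)) ^ 2) ν := by
    have : (fun x => (√(A x) + √(B x)) ^ 2) = fun x => A x + B x + 2 * (√(A x) * √(B x)) := by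
      funext x
      nlinarith [Real.sq_sqrt (hA0 x), Real.sq_sqrt (hB0 x)]
    rw [this]
    exact (hA.add hB).add (hi.const_mul 2)
  have hU1 : ∫ x, (√(A x) - √(B x)) ^ 2 ∂ν = 2 - 2 * ρ := by
    have : (fun x => (√(A x) - √(B x)) ^ 2) = fun x => (A x + B x) - 2 * (√(A x) * √(B x)) := by
      funext x
      nlinarith [Real.sq_sqrt (hA0 x), Real.sq_sqrt (hB0 x)]
    have hAB : Integrable (fun x => A x + B x) ν := hA.add hB
    rw [this, integral_sub hAB (hi.const_mul 2), integral_add hA hB, integral_const_mul,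
      hA1, hB1]
    norm_num
    exact hρ.symm
  have hV1 : ∫ x, (√(A x) + √(B x)) ^ 2 ∂ν = 2 + 2 * ρ := by
    have : (fun x => (√(A x) + √(B x)) ^ 2) = fun x => (A x + B x) + 2 * (√(A x) * √(B x)) := by
      funext x
      nlinarith [Real.sq_sqrt (hA0 x), Real.sq_sqrt (hB0 x)]
    have hAB : Integrable (fun x => A x + B x) ν := hA.add hB
    rw [this, integral_add hAB (hi.const_mul 2), integral_add hA hB, integral_const_mul,
      hA1, hB1]
    norm_num
    exact hρ.symm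
  have hle : ρ ≤ 1 := by
    have : 0 ≤ ∫ x, (√(A x) - √(B x)) ^ 2 ∂ν := integral_nonneg fun x => sq_nonneg _
    rw [hU1] at this
    linarith
  refine ⟨h0, hle, hi, ?_⟩
  -- Cauchy-Schwarz by a parameter
  have hD : Integrable (fun x => |A x - B x|) ν := (hA.sub hB).abs
  have key : ∀ t : ℝ, 0 < t → 2 * ∫ x, |A x - B x| ∂ν ≤ t * (2 - 2 * ρ) + t⁻¹ * (2 + 2 * ρ) := by
    intro t ht
    rw [← hU1, ← hV1, ← integral_const_mul, ← integral_const_mul, ← integral_const_mul,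
      ← integral_add (hU.const_mul t) (hV.const_mul _)]
    refine integral_mono (hD.const_mul 2) ((hU.const_mul t).add (hV.const_mul _)) fun x => ?_
    simp only
    have h1 : |A x - B x| = |√(A x) - √(B x)| * (√(A x) + √(B x)) := by
      rw [← abs_of_nonneg (show 0 ≤ √(A x) + √(B x) by positivity), ← abs_mul]
      congr 1
      nlinarith [Real.sq_sqrt (hA0 x), Real.sq_sqrt (hB0 x)]
    rw [h1]
    set u := |√(A x) - √(B x)| with hu
    have hu2 : (√(A x) - √(B x)) ^ 2 = u ^ 2 := by rw [hu, sq_abs]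
    rw [hu2]
    set v := √(A x) + √(B x)
    have h2 : t * u ^ 2 + t⁻¹ * v ^ 2 - 2 * (u * v) = t⁻¹ * (t * u - v) ^ 2 := by
      field_simp
      ring
    have h3 : 0 ≤ t⁻¹ * (t * u - v) ^ 2 := by positivity
    linarith
  set T := ∫ x, |A x - B x| ∂ν with hT
  have hT0 : 0 ≤ T := integral_nonneg fun x => abs_nonneg _
  rcases eq_or_lt_of_le hle with h1 | h1
  · -- ρ = 1
    have : T = 0 := by
      by_contra hne
      have hTp : 0 < T := lt_of_le_of_ne hT0 (Ne.symm hne)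
      have := key (4 / T) (by positivity)
      rw [h1] at this
      have h4 : (4 / T)⁻¹ = T / 4 := by rw [inv_div]
      rw [h4] at this
      linarith
    rw [this, h1]
    norm_num
  · have h5 : 0 < 1 - ρ := by linarith
    have h6 : 0 < 1 + ρ := by linarith
    set w := √((1 + ρ) / (1 - ρ)) with hw
    have hwp : 0 < w := Real.sqrt_pos.2 (by positivity)
    have hw2 : w ^ 2 = (1 + ρ) / (1 - ρ) := Real.sq_sqrt (by positivity)
    have h7 := key w hwp
    have h8 : w ^ 2 * (1 - ρ) = 1 + ρ := by rw [hw2]; field_simp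
    have h9 : w⁻¹ * (2 + 2 * ρ) = w * (2 - 2 * ρ) := by
      rw [show 2 + 2 * ρ = 2 * (w ^ 2 * (1 - ρ)) by rw [h8]; ring]
      field_simp
    rw [h9] at h7
    have h10 : T ≤ 2 * (w * (1 - ρ)) := by linarith
    calc T ^ 2 ≤ (2 * (w * (1 - ρ))) ^ 2 := by gcongr
      _ = 4 * ((w ^ 2 * (1 - ρ)) * (1 - ρ)) := by ring
      _ = 4 * (1 - ρ ^ 2) := by rw [h8]; ring

/-- The affinity of three densities, two of which are far from the third one. -/
theorem affinity {A B C : Ω → ℝ} (hA0 : ∀ x, 0 ≤ A x) (hB0 : ∀ x, 0 ≤ B x) (hC0 : ∀ x, 0 ≤ C x)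
    (hAm : Measurable A) (hBm : Measurable B) (hCm : Measurable C)
    (hA : Integrable A ν) (hB : Integrable B ν) (hC : Integrable C ν)
    (hA1 : ∫ x, A x ∂ν = 1) (hB1 : ∫ x, B x ∂ν = 1) (hC1 : ∫ x, C x ∂ν = 1)
    (h : 1 ≤ (∫ x, |A x - B x| ∂ν) + ∫ x, |A x - C x| ∂ν) :
    ∫⁻ x, ENNReal.ofReal (√(√(A x) * √(B x)) * √(√(A x) * √(C x))) ∂ν ≤ ENNReal.ofReal (√15 / 4) := by
  obtain ⟨hr0, hr1, hri, hr⟩ := tv_le hA0 hB0 hAm hBm hA hB hA1 hB1
  obtain ⟨hs0, hs1, hsi, hs⟩ := tv_le hA0 hC0 hAm hCm hA hC hA1 hC1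
  set ρ := ∫ x, √(A x) * √(B x) ∂ν with hρ
  set σ := ∫ x, √(A x) * √(C x) ∂ν with hσ
  set S := ∫ x, |A x - B x| ∂ν with hS
  set T := ∫ x, |A x - C x| ∂ν with hT
  have hS0 : 0 ≤ S := integral_nonneg fun x => abs_nonneg _
  have hT0 : 0 ≤ T := integral_nonneg fun x => abs_nonneg _
  -- ρ σ ≤ 15/16
  have hρσ : ρ * σ ≤ 15 / 16 := by
    by_contra hcon
    push Not at hcon
    have h1 : ρ ^ 2 ≤ 1 - S ^ 2 / 4 := by linarith
    have h2 : σ ^ 2 ≤ 1 - T ^ 2 / 4 := by linarith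
    have h3 : (ρ * σ) ^ 2 ≤ (1 - S ^ 2 / 4) * (1 - T ^ 2 / 4) := by
      rw [mul_pow]
      exact mul_le_mul h1 h2 (sq_nonneg _) (le_trans (sq_nonneg _) h1)
    have h4 : (1 - S ^ 2 / 4) * (1 - T ^ 2 / 4) ≤ (1 - (S + T) ^ 2 / 16) ^ 2 := by
      have e : (1 - (S + T) ^ 2 / 16) ^ 2 - (1 - S ^ 2 / 4) * (1 - T ^ 2 / 4) =
          (S - T) ^ 2 / 8 + (S - T) ^ 2 * ((S + T) ^ 2 + 4 * (S * T)) / 256 := by ring
      have e2 : 0 ≤ (S - T) ^ 2 / 8 + (S - T) ^ 2 * ((S + T) ^ 2 + 4 * (S * T)) / 256 := by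
        positivity
      linarith
    have hS2 : S ≤ 2 := by
      by_contra hc
      push Not at hc
      have : (2 : ℝ) ^ 2 < S ^ 2 := by gcongr
      have := sq_nonneg ρ
      linarith
    have hT2 : T ≤ 2 := by
      by_contra hc
      push Not at hc
      have : (2 : ℝ) ^ 2 < T ^ 2 := by gcongr
      have := sq_nonneg σ
      linarith
    have h50 : (S + T) ^ 2 ≤ 4 ^ 2 := by
      have : S + T ≤ 4 := by linarith
      gcongr
    have h60 : 1 ^ 2 ≤ (S + T) ^ 2 := by gcongr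
    have h5 : 0 ≤ 1 - (S + T) ^ 2 / 16 := by linarith
    have h6 : 1 - (S + T) ^ 2 / 16 ≤ 15 / 16 := by linarith
    have h7 : (1 - (S + T) ^ 2 / 16) ^ 2 ≤ (15 / 16) ^ 2 := by gcongr
    have h8 : (15 / 16 : ℝ) ^ 2 < (ρ * σ) ^ 2 := by gcongr
    linarith
  -- integrability and Cauchy-Schwarz
  have hprod : ∀ t : ℝ, 0 < t → ∫⁻ x, ENNReal.ofReal (√(√(A x) * √(B x)) * √(√(A x) * √(C x))) ∂ν ≤
      ENNReal.ofReal ((t * ρ + t⁻¹ * σ) / 2) := by
    intro t ht
    have hI : Integrable (fun x => (t * (√(A x) * √(B x)) + t⁻¹ * (√(A x) * √(C x))) / 2) ν :=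
      ((hri.const_mul t).add (hsi.const_mul _)).div_const 2
    have e : (t * ρ + t⁻¹ * σ) / 2 =
        ∫ x, (t * (√(A x) * √(B x)) + t⁻¹ * (√(A x) * √(C x))) / 2 ∂ν := by
      rw [integral_div, integral_add (hri.const_mul t) (hsi.const_mul _), integral_const_mul,
        integral_const_mul]
    rw [e, ofReal_integral_eq_lintegral_ofReal hI (Filter.Eventually.of_forall fun x => by positivity)]
    refine lintegral_mono fun x => ENNReal.ofReal_le_ofReal ?_
    set u := √(A x) * √(B x) with hu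
    set v := √(A x) * √(C x) with hv
    have hu0 : 0 ≤ u := by positivity
    have hv0 : 0 ≤ v := by positivity
    have h1 : (t * u + t⁻¹ * v) / 2 - √u * √v = t⁻¹ * (t * √u - √v) ^ 2 / 2 := by
      have e1 : (t * √u - √v) ^ 2 = t ^ 2 * u - 2 * t * (√u * √v) + v := by
        rw [sub_sq, mul_pow, Real.sq_sqrt hu0, Real.sq_sqrt hv0]; ring
      rw [e1]
      field_simp
      ring
    have h2 : 0 ≤ t⁻¹ * (t * √u - √v) ^ 2 / 2 := by positivity
    linarith
  have hs15 : (0 : ℝ) < √15 / 4 := by positivity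
  have hs152 : (√15 / 4) ^ 2 = 15 / 16 := by
    rw [div_pow, Real.sq_sqrt (by norm_num)]; norm_num
  rcases eq_or_lt_of_le hr0 with h0 | h0
  · -- ρ = 0
    refine (hprod (2 * (√15 / 4))⁻¹ (by positivity)).trans (ENNReal.ofReal_le_ofReal ?_) |>.trans le_rfl
    rw [← h0, inv_inv]
    nlinarith
  · refine (hprod ((√15 / 4) / ρ) (by positivity)).trans (ENNReal.ofReal_le_ofReal ?_)
    rw [inv_div]
    have e1 : √15 / 4 / ρ * ρ = √15 / 4 := by field_simp
    have e2 : ρ / (√15 / 4) * σ ≤ √15 / 4 := by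
      rw [div_mul_eq_mul_div, div_le_iff₀ hs15]
      nlinarith
    linarith

end Pool.Agent.Helper190H
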