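import Mathlib

open MeasureTheory Set Filter Topology

namespace Pool.Agent.Helper190H

/-- The density of the Hilbert kernel. -/
noncomputable def ker (x y : ℝ) : ℝ := √x / (Real.pi * √y * (x + y))

theorem ker_nonneg {x y : ℝ} (hx : 0 ≤ x) (hy : 0 ≤ y) : 0 ≤ ker x y := by
  unfold ker
  have := Real.pi_pos
  positivity

theorem measurable_ker : Measurable (fun p : ℝ × ℝ => ker p.1 p.2) := by
  unfold ker
  fun_prop

theorem measurable_ker' : Measurable (fun p : ℝ × ℝ => ker p.2 p.1) := by
  unfold ker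
  fun_prop

theorem hasDeriv (x : ℝ) (hx : 0 < x) (y : ℝ) (hy : 0 < y) :
    HasDerivAt (fun y => 2 / Real.pi * Real.arctan (√y / √x)) (ker x y) y := by
  have h1 : HasDerivAt (fun y => √y / √x) (1 / (2 * √y) / √x) y :=
    (Real.hasDerivAt_sqrt hy.ne').div_const _
  have h2 := (h1.arctan).const_mul (2 / Real.pi)
  have hsx : 0 < √x := Real.sqrt_pos.2 hx
  have hsy : 0 < √y := Real.sqrt_pos.2 hy
  have hpi := Real.pi_pos
  have h3 : ker x y = 2 / Real.pi * (1 / (1 + (√y / √x) ^ 2) * (1 / (2 * √y) / √x)) := by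
    unfold ker
    have e1 : x = √x ^ 2 := (Real.sq_sqrt hx.le).symm
    have e2 : y = √y ^ 2 := (Real.sq_sqrt hy.le).symm
    have e3 : x + y = √x ^ 2 + √y ^ 2 := by rw [← e1, ← e2]
    rw [e3]
    have hne : √x ^ 2 + √y ^ 2 ≠ 0 := by positivity
    have hne2 : 1 + (√y / √x) ^ 2 ≠ 0 := by positivity
    field_simp
  rw [h3]
  exact h2

theorem tends (x : ℝ) (hx : 0 < x) :
    Tendsto (fun y => 2 / Real.pi * Real.arctan (√y / √x)) atTop (𝓝 1) := by
  have h1 : Tendsto (fun y : ℝ => √y / √x) atTop atTop :=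
    Tendsto.atTop_div_const (Real.sqrt_pos.2 hx) Real.tendsto_sqrt_atTop
  have h2 : Tendsto (fun y : ℝ => Real.arctan (√y / √x)) atTop (𝓝 (Real.pi / 2)) :=
    (tendsto_nhds_of_tendsto_nhdsWithin Real.tendsto_arctan_atTop).comp h1
  have h3 := h2.const_mul (2 / Real.pi)
  have e : 2 / Real.pi * (Real.pi / 2) = 1 := by field_simp [Real.pi_ne_zero]
  rwa [e] at h3

theorem cont (x a : ℝ) : ContinuousWithinAt
    (fun y => 2 / Real.pi * Real.arctan (√y / √x)) (Ici a) a := by
  apply Continuous.continuousWithinAt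
  have : Continuous fun y => √y / √x := Real.continuous_sqrt.div_const _
  exact continuous_const.mul (Real.continuous_arctan.comp this)

theorem ker_integrable (x : ℝ) (hx : 0 < x) : IntegrableOn (ker x) (Ioi 0) :=
  integrableOn_Ioi_deriv_of_nonneg (cont x 0) (fun y hy => hasDeriv x hx y hy)
    (fun _ hy => ker_nonneg hx.le (le_of_lt hy)) (tends x hx)

theorem ker_integral (x : ℝ) (hx : 0 < x) : ∫ y in Ioi 0, ker x y = 1 := by
  rw [integral_Ioi_of_hasDerivAt_of_nonneg (cont x 0) (fun y hy => hasDeriv x hx y hy)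
    (fun _ hy => ker_nonneg hx.le (le_of_lt hy)) (tends x hx)]
  simp

theorem ker_integral' (x : ℝ) (hx : 0 < x) : ∫ y in Ioi x, ker x y = 1 / 2 := by
  rw [integral_Ioi_of_hasDerivAt_of_nonneg (cont x x)
    (fun y hy => hasDeriv x hx y (hx.trans hy))
    (fun _ hy => ker_nonneg hx.le (hx.trans hy).le) (tends x hx)]
  rw [div_self (Real.sqrt_pos.2 hx).ne', Real.arctan_one]
  field_simp [Real.pi_ne_zero]
  norm_num

/-- The sign of `x - y`, with the value 1 on the diagonal. -/
noncomputable def sg (x y : ℝ) : ℝ := if y ≤ x then 1 else -1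

theorem measurable_sg : Measurable (fun p : ℝ × ℝ => sg p.1 p.2) := by
  unfold sg
  exact Measurable.ite (measurableSet_le measurable_snd measurable_fst) measurable_const
    measurable_const

theorem sg_abs (x y : ℝ) : |sg x y| = 1 := by
  unfold sg
  split_ifs <;> simp

/-- The kernel is balanced. -/
theorem ker_sg (x : ℝ) (hx : 0 < x) : ∫ y in Ioi 0, sg x y * ker x y = 0 := by
  have h1 : ∀ y, sg x y * ker x y = ker x y - 2 * (Ioi x).indicator (ker x) y := by
    intro y
    unfold sg
    by_cases h : y ≤ x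
    · rw [if_pos h, indicator_of_notMem (by simpa using h)]
      ring
    · rw [if_neg h, indicator_of_mem (by simpa using h)]
      ring
  simp_rw [h1]
  have h2 : IntegrableOn ((Ioi x).indicator (ker x)) (Ioi 0) :=
    (ker_integrable x hx).indicator measurableSet_Ioi
  rw [integral_sub (ker_integrable x hx) (h2.const_mul 2), integral_const_mul, ker_integral x hx]
  rw [setIntegral_indicator measurableSet_Ioi]
  have e : Ioi (0 : ℝ) ∩ Ioi x = Ioi x := by
    ext y
    simp only [mem_inter_iff, mem_Ioi]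
    constructor
    · exact fun h => h.2
    · exact fun h => ⟨hx.trans h, h⟩
  rw [e, ker_integral' x hx]
  norm_num

/-- The same in the other variable. -/
theorem ker_sg' (y : ℝ) (hy : 0 < y) : ∫ x in Ioi 0, sg x y * ker y x = 0 := by
  have h1 : ∀ᵐ x ∂(volume.restrict (Ioi (0:ℝ))), sg x y * ker y x = -(sg y x * ker y x) := by
    have : ∀ᵐ x ∂(volume.restrict (Ioi (0:ℝ))), x ≠ y := by
      refine ae_restrict_of_ae ?_
      exact (Set.countable_singleton y).ae_notMem volume |>.mono fun x hx => by simpa using hx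
    filter_upwards [this] with x hxy
    unfold sg
    rcases lt_or_gt_of_ne hxy with h | h
    · rw [if_neg (not_le.2 h), if_pos h.le]
      ring
    · rw [if_pos h.le, if_neg (not_le.2 h)]
      ring
  rw [integral_congr_ae h1, integral_neg, ker_sg y hy, neg_zero]

end Pool.Agent.Helper190H
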