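import Pool.Agent.Helper190H.Core
import Pool.Agent.Helper190H.Ker

open MeasureTheory Set Filter Topology

namespace Pool.Agent.Helper190H

noncomputable abbrev mu : Measure ℝ := volume.restrict (Ioi (0:ℝ))

/-- The kernel, made nonnegative everywhere. -/
noncomputable def kp (x y : ℝ) : ℝ := |ker x y|

theorem kp_eq {x y : ℝ} (hx : 0 < x) (hy : 0 < y) : kp x y = ker x y :=
  abs_of_nonneg (ker_nonneg hx.le hy.le)

theorem kp_integrable (x : ℝ) (hx : 0 < x) : Integrable (kp x) mu :=
  (ker_integrable x hx).abs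

theorem kp_integral (x : ℝ) (hx : 0 < x) : ∫ y, kp x y ∂mu = 1 := by
  rw [← ker_integral x hx]
  exact setIntegral_congr_fun measurableSet_Ioi fun y hy => kp_eq hx hy

theorem kp_sg (x : ℝ) (hx : 0 < x) : ∫ y, sg x y * kp x y ∂mu = 0 := by
  rw [← ker_sg x hx]
  exact setIntegral_congr_fun measurableSet_Ioi fun y hy => by simp only [kp_eq hx hy]

theorem kp_sg' (y : ℝ) (hy : 0 < y) : ∫ x, sg x y * kp y x ∂mu = 0 := by
  rw [← ker_sg' y hy]
  exact setIntegral_congr_fun measurableSet_Ioi fun x hx => by simp only [kp_eq hy hx]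

theorem measurable_kp : Measurable (fun p : ℝ × ℝ => kp p.1 p.2) := measurable_ker.norm

theorem measurable_kp' : Measurable (fun p : ℝ × ℝ => kp p.2 p.1) := measurable_ker'.norm

/-- The two sides of a point. -/
noncomputable def eps (m x : ℝ) : ℝ := if x ≤ m then -1 else 1

theorem measurable_eps (m : ℝ) : Measurable (eps m) := by
  unfold eps
  exact Measurable.ite measurableSet_Iic measurable_const measurable_const

theorem eps_abs (m x : ℝ) : |eps m x| = 1 := by
  unfold eps
  split_ifs <;> simp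

theorem eps_sg (m x y : ℝ) : (eps m x - eps m y) * sg x y = 1 - eps m x * eps m y := by
  unfold eps sg
  by_cases h1 : x ≤ m <;> by_cases h2 : y ≤ m <;> by_cases h3 : y ≤ x
  · simp [h1, h2, h3]
  · simp [h1, h2, h3]
  · exact absurd (h3.trans h1) h2
  · simp only [h1, h2, h3, if_true, if_false]; norm_num
  · simp only [h1, h2, h3, if_true, if_false]; norm_num
  · exact absurd ((not_le.1 h3).le.trans h2) h1
  · simp [h1, h2, h3]
  · simp [h1, h2, h3]

/-- The median. -/
theorem exists_median {P : ℝ → ℝ} (hP : Integrable P mu)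
    (hP1 : ∫ x, P x ∂mu = 1) : ∃ m : ℝ, ∫ x, P x * eps m x ∂mu = 0 := by
  set Q := (Ioi (0:ℝ)).indicator P with hQ
  have hQi : Integrable Q volume := (integrable_indicator_iff measurableSet_Ioi).2 hP
  have hc : Continuous fun b => ∫ x in (0:ℝ)..b, Q x :=
    intervalIntegral.continuous_primitive (fun a b => hQi.intervalIntegrable) 0
  have hQ1 : ∫ x in Ioi (0:ℝ), Q x = 1 := by
    rw [← hP1]
    exact setIntegral_congr_fun measurableSet_Ioi fun y hy => indicator_of_mem hy _
  have ht : Tendsto (fun b : ℝ => ∫ x in (0:ℝ)..b, Q x) atTop (𝓝 1) := by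
    rw [← hQ1]
    exact intervalIntegral_tendsto_integral_Ioi 0 hQi.integrableOn tendsto_id
  obtain ⟨b, hb1, hb2⟩ : ∃ b : ℝ, 0 ≤ b ∧ 1 / 2 ≤ ∫ x in (0:ℝ)..b, Q x := by
    have h1 := ht.eventually (eventually_ge_nhds (show (1/2:ℝ) < 1 by norm_num))
    obtain ⟨b, hb⟩ := (h1.and (eventually_ge_atTop 0)).exists
    exact ⟨b, hb.2, hb.1⟩
  have h0 : ∫ x in (0:ℝ)..0, Q x = 0 := intervalIntegral.integral_same
  obtain ⟨m, hm, hmv⟩ := intermediate_value_Icc hb1 hc.continuousOn
    (show (1/2:ℝ) ∈ Icc (∫ x in (0:ℝ)..0, Q x) (∫ x in (0:ℝ)..b, Q x) from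
      ⟨by rw [h0]; norm_num, hb2⟩)
  refine ⟨m, ?_⟩
  have e1 : ∀ x, P x * eps m x = P x - 2 * (Iic m).indicator P x := by
    intro x
    unfold eps
    by_cases h : x ≤ m
    · rw [if_pos h, indicator_of_mem (by simpa using h)]; ring
    · rw [if_neg h, indicator_of_notMem (by simpa using h)]; ring
  simp_rw [e1]
  have h2 : Integrable ((Iic m).indicator P) mu := hP.indicator measurableSet_Iic
  rw [integral_sub hP (h2.const_mul 2), integral_const_mul, hP1, setIntegral_indicator
    measurableSet_Iic]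
  have e2 : Ioi (0:ℝ) ∩ Iic m = Ioc 0 m := rfl
  rw [e2]
  have e3 : ∫ x in Ioc 0 m, P x = 1 / 2 := by
    rw [← hmv]
    simp only
    rw [intervalIntegral.integral_of_le hm.1]
    exact setIntegral_congr_fun measurableSet_Ioc fun y hy => (indicator_of_mem hy.1 _).symm
  rw [e3]
  norm_num

theorem mainDens {P R : ℝ → ℝ} (hP0 : ∀ x, 0 ≤ P x) (hR0 : ∀ x, 0 ≤ R x)
    (hPm : Measurable P) (hRm : Measurable R) (hP : Integrable P mu) (hR : Integrable R mu)
    (hP1 : ∫ x, P x ∂mu = 1) (hR1 : ∫ x, R x ∂mu = 1) :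
    ∫⁻ z, ENNReal.ofReal (√(√(P z.1 * R z.2) * √(P z.1 * kp z.1 z.2)) *
      √(√(P z.1 * R z.2) * √(R z.2 * kp z.2 z.1))) ∂(mu.prod mu) ≤ ENNReal.ofReal (√15 / 4) := by
  set A : ℝ × ℝ → ℝ := fun z => P z.1 * R z.2 with hA
  set B : ℝ × ℝ → ℝ := fun z => P z.1 * kp z.1 z.2 with hB
  set C : ℝ × ℝ → ℝ := fun z => R z.2 * kp z.2 z.1 with hC
  have hk0 : ∀ x y, 0 ≤ kp x y := fun x y => abs_nonneg _
  have hA0 : ∀ z, 0 ≤ A z := fun z => mul_nonneg (hP0 _) (hR0 _)
  have hB0 : ∀ z, 0 ≤ B z := fun z => mul_nonneg (hP0 _) (hk0 _ _)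
  have hC0 : ∀ z, 0 ≤ C z := fun z => mul_nonneg (hR0 _) (hk0 _ _)
  have hAm : Measurable A := (hPm.comp measurable_fst).mul (hRm.comp measurable_snd)
  have hBm : Measurable B := (hPm.comp measurable_fst).mul measurable_kp
  have hCm : Measurable C := (hRm.comp measurable_snd).mul measurable_kp'
  have hpos : ∀ᵐ x ∂mu, 0 < x := ae_restrict_mem measurableSet_Ioi
  have hAi : Integrable A (mu.prod mu) := hP.mul_prod hR
  have hBi : Integrable B (mu.prod mu) := by
    rw [integrable_prod_iff hBm.aestronglyMeasurable]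
    constructor
    · filter_upwards [hpos] with x hx
      exact (kp_integrable x hx).const_mul (P x)
    · refine hP.congr ?_
      filter_upwards [hpos] with x hx
      have : ∀ y, ‖B (x, y)‖ = P x * kp x y := fun y => Real.norm_of_nonneg (hB0 _)
      simp_rw [this]
      rw [integral_const_mul, kp_integral x hx, mul_one]
  have hCi : Integrable C (mu.prod mu) := by
    rw [integrable_prod_iff' hCm.aestronglyMeasurable]
    constructor
    · filter_upwards [hpos] with y hy
      exact (kp_integrable y hy).const_mul (R y)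
    · refine hR.congr ?_
      filter_upwards [hpos] with y hy
      have : ∀ x, ‖C (x, y)‖ = R y * kp y x := fun x => Real.norm_of_nonneg (hC0 _)
      simp_rw [this]
      rw [integral_const_mul, kp_integral y hy, mul_one]
  have hA1 : ∫ z, A z ∂(mu.prod mu) = 1 := by
    rw [hA, integral_prod_mul, hP1, hR1, mul_one]
  have hB1 : ∫ z, B z ∂(mu.prod mu) = 1 := by
    rw [integral_prod _ hBi, ← hP1]
    refine integral_congr_ae ?_
    filter_upwards [hpos] with x hx
    simp only [hB]
    rw [integral_const_mul, kp_integral x hx, mul_one]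
  have hC1 : ∫ z, C z ∂(mu.prod mu) = 1 := by
    rw [integral_prod_symm _ hCi, ← hR1]
    refine integral_congr_ae ?_
    filter_upwards [hpos] with y hy
    simp only [hC]
    rw [integral_const_mul, kp_integral y hy, mul_one]
  obtain ⟨m, hm⟩ := exists_median hP hP1
  refine affinity hA0 hB0 hC0 hAm hBm hCm hAi hBi hCi hA1 hB1 hC1 ?_
  -- the two tests
  have hsm : Measurable (fun z : ℝ × ℝ => eps m z.1 * sg z.1 z.2) :=
    ((measurable_eps m).comp measurable_fst).mul measurable_sg
  have hsm' : Measurable (fun z : ℝ × ℝ => eps m z.2 * sg z.1 z.2) :=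
    ((measurable_eps m).comp measurable_snd).mul measurable_sg
  have hab : ∀ z : ℝ × ℝ, |eps m z.1 * sg z.1 z.2| = 1 := fun z => by
    rw [abs_mul, eps_abs, sg_abs, mul_one]
  have hab' : ∀ z : ℝ × ℝ, |eps m z.2 * sg z.1 z.2| = 1 := fun z => by
    rw [abs_mul, eps_abs, sg_abs, mul_one]
  have bdd : ∀ (w g : ℝ × ℝ → ℝ), Measurable w → (∀ z, |w z| = 1) → Integrable g (mu.prod mu) →
      Integrable (fun z => w z * g z) (mu.prod mu) := by
    intro w g hw hw1 hg
    refine hg.mono (hw.aestronglyMeasurable.mul hg.aestronglyMeasurable) (Eventually.of_forall ?_)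
    intro z
    rw [Real.norm_eq_abs, abs_mul, hw1, one_mul, Real.norm_eq_abs]
  have i1 := bdd _ _ hsm hab hAi
  have i2 := bdd _ _ hsm hab hBi
  have i3 := bdd _ _ hsm' hab' hAi
  have i4 := bdd _ _ hsm' hab' hCi
  have z1 : ∫ z, eps m z.1 * sg z.1 z.2 * B z ∂(mu.prod mu) = 0 := by
    rw [integral_prod _ i2]
    rw [integral_eq_zero_of_ae]
    filter_upwards [hpos] with x hx
    simp only [hB, Pi.zero_apply]
    have : ∀ y, eps m x * sg x y * (P x * kp x y) = (eps m x * P x) * (sg x y * kp x y) :=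
      fun y => by ring
    simp_rw [this]
    rw [integral_const_mul, kp_sg x hx, mul_zero]
  have z2 : ∫ z, eps m z.2 * sg z.1 z.2 * C z ∂(mu.prod mu) = 0 := by
    rw [integral_prod_symm _ i4]
    rw [integral_eq_zero_of_ae]
    filter_upwards [hpos] with y hy
    simp only [hC, Pi.zero_apply]
    have : ∀ x, eps m y * sg x y * (R y * kp y x) = (eps m y * R y) * (sg x y * kp y x) :=
      fun x => by ring
    simp_rw [this]
    rw [integral_const_mul, kp_sg' y hy, mul_zero]
  have z3 : ∫ z, (eps m z.1 - eps m z.2) * sg z.1 z.2 * A z ∂(mu.prod mu) = 1 := by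
    have e : ∀ z : ℝ × ℝ, (eps m z.1 - eps m z.2) * sg z.1 z.2 * A z =
        A z - (P z.1 * eps m z.1) * (R z.2 * eps m z.2) := by
      intro z
      rw [eps_sg]
      simp only [hA]
      ring
    simp_rw [e]
    have j1 : Integrable (fun x => P x * eps m x) mu := by
      refine hP.mono (hP.aestronglyMeasurable.mul (measurable_eps m).aestronglyMeasurable)
        (Eventually.of_forall fun x => ?_)
      rw [Real.norm_eq_abs, abs_mul, eps_abs, mul_one, Real.norm_eq_abs]
    have j2 : Integrable (fun x => R x * eps m x) mu := by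
      refine hR.mono (hR.aestronglyMeasurable.mul (measurable_eps m).aestronglyMeasurable)
        (Eventually.of_forall fun x => ?_)
      rw [Real.norm_eq_abs, abs_mul, eps_abs, mul_one, Real.norm_eq_abs]
    have j3 : Integrable (fun z : ℝ × ℝ => (P z.1 * eps m z.1) * (R z.2 * eps m z.2))
        (mu.prod mu) := j1.mul_prod j2
    rw [integral_sub hAi j3, hA1, integral_prod_mul (fun x => P x * eps m x)
      (fun x => R x * eps m x), hm, zero_mul, sub_zero]
  have e1 : (1 : ℝ) = (∫ z, eps m z.1 * sg z.1 z.2 * (A z - B z) ∂(mu.prod mu)) -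
      ∫ z, eps m z.2 * sg z.1 z.2 * (A z - C z) ∂(mu.prod mu) := by
    have a1 : ∫ z, eps m z.1 * sg z.1 z.2 * (A z - B z) ∂(mu.prod mu) =
        ∫ z, eps m z.1 * sg z.1 z.2 * A z ∂(mu.prod mu) := by
      have : ∀ z : ℝ × ℝ, eps m z.1 * sg z.1 z.2 * (A z - B z) =
        eps m z.1 * sg z.1 z.2 * A z - eps m z.1 * sg z.1 z.2 * B z := fun z => by ring
      simp_rw [this]
      rw [integral_sub i1 i2, z1, sub_zero]
    have a2 : ∫ z, eps m z.2 * sg z.1 z.2 * (A z - C z) ∂(mu.prod mu) =
        ∫ z, eps m z.2 * sg z.1 z.2 * A z ∂(mu.prod mu) := by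
      have : ∀ z : ℝ × ℝ, eps m z.2 * sg z.1 z.2 * (A z - C z) =
        eps m z.2 * sg z.1 z.2 * A z - eps m z.2 * sg z.1 z.2 * C z := fun z => by ring
      simp_rw [this]
      rw [integral_sub i3 i4, z2, sub_zero]
    rw [a1, a2, ← integral_sub i1 i3, ← z3]
    refine integral_congr_ae (Eventually.of_forall fun z => ?_)
    simp only
    ring
  have b1 : ∫ z, eps m z.1 * sg z.1 z.2 * (A z - B z) ∂(mu.prod mu) ≤
      ∫ z, |A z - B z| ∂(mu.prod mu) := by
    refine integral_mono (bdd _ _ hsm hab (hAi.sub hBi)) (hAi.sub hBi).abs fun z => ?_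
    refine (le_abs_self _).trans ?_
    rw [abs_mul, hab, one_mul]
  have b2 : -∫ z, eps m z.2 * sg z.1 z.2 * (A z - C z) ∂(mu.prod mu) ≤
      ∫ z, |A z - C z| ∂(mu.prod mu) := by
    rw [← integral_neg]
    refine integral_mono (bdd _ _ hsm' hab' (hAi.sub hCi)).neg (hAi.sub hCi).abs fun z => ?_
    refine (neg_le_abs _).trans ?_
    rw [abs_mul, hab', one_mul]
  linarith

end Pool.Agent.Helper190H
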