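import Pool.Agent.Helper190H.Ser

open MeasureTheory Set Filter Topology NNReal ENNReal

namespace Pool.Agent.Helper190H

/-- The cells of length `h`. -/
def cell (h : ℝ) (n : ℕ) : Set ℝ := Ioc (n * h) ((n + 1) * h)

theorem measurableSet_cell (h : ℝ) (n : ℕ) : MeasurableSet (cell h n) := measurableSet_Ioc

theorem ceil_cell {h : ℝ} (hh : 0 < h) {n : ℕ} {x : ℝ} (hx : x ∈ cell h n) : ⌈x / h⌉₊ = n + 1 :=
  ceil_of_mem ⟨by rw [lt_div_iff₀ hh]; exact hx.1, by rw [div_le_iff₀ hh]; exact hx.2⟩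

theorem union_cell {h : ℝ} (hh : 0 < h) : (⋃ n : ℕ, cell h n) = Ioi (0 : ℝ) := by
  ext x
  have h1 : x ∈ Ioi (0:ℝ) ↔ x / h ∈ Ioi (0:ℝ) := by
    simp only [mem_Ioi]
    constructor
    · intro h; positivity
    · intro h0
      have := mul_pos h0 hh
      rwa [div_mul_cancel₀ _ hh.ne'] at this
  rw [h1, ← union_Ioc]
  simp only [mem_iUnion]
  refine exists_congr fun n => ?_
  unfold cell
  simp only [mem_Ioc]
  rw [lt_div_iff₀ hh, div_le_iff₀ hh]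

theorem lint_cells {h : ℝ} (hh : 0 < h) (H : ℝ → ℝ≥0∞) :
    ∫⁻ x, H x ∂mu = ∑' n : ℕ, ∫⁻ x in cell h n, H x := by
  unfold mu
  rw [← union_cell hh, lintegral_iUnion (fun n => measurableSet_cell h n)]
  intro i j hij
  refine Set.disjoint_left.2 fun x hx hx' => hij ?_
  have h1 := ceil_cell hh hx
  have h2 := ceil_cell hh hx'
  omega

theorem vol_cell {h : ℝ} (n : ℕ) : volume (cell h n) = ENNReal.ofReal h := by
  unfold cell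
  rw [Real.volume_Ioc]
  congr 1
  ring

theorem cell_holder {h : ℝ} {f : ℝ → ℝ≥0} (hf : Measurable f) (n : ℕ) :
    (∫⁻ x in cell h n, (f x : ℝ≥0∞)) ^ (4 / 3 : ℝ) ≤
      ENNReal.ofReal h ^ (1 / 3 : ℝ) * ∫⁻ x in cell h n, (f x : ℝ≥0∞) ^ (4 / 3 : ℝ) := by
  have hpq : (4 / 3 : ℝ).HolderConjugate 4 := by
    rw [Real.holderConjugate_iff]
    norm_num
  have h1 := ENNReal.lintegral_mul_le_Lp_mul_Lq (volume.restrict (cell h n)) hpq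
    (f := fun x => (f x : ℝ≥0∞)) (g := fun _ => 1) (by fun_prop) (by fun_prop)
  simp only [Pi.mul_apply, mul_one, ENNReal.one_rpow, lintegral_const,
    Measure.restrict_apply MeasurableSet.univ, univ_inter, vol_cell, one_mul] at h1
  calc (∫⁻ x in cell h n, (f x : ℝ≥0∞)) ^ (4 / 3 : ℝ)
      ≤ ((∫⁻ x in cell h n, (f x : ℝ≥0∞) ^ (4 / 3 : ℝ)) ^ (1 / (4 / 3) : ℝ) *
          ENNReal.ofReal h ^ (1 / 4 : ℝ)) ^ (4 / 3 : ℝ) :=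
        ENNReal.rpow_le_rpow h1 (by norm_num)
    _ = _ := by
        rw [ENNReal.mul_rpow_of_nonneg _ _ (by norm_num), ← ENNReal.rpow_mul, ← ENNReal.rpow_mul]
        norm_num
        rw [mul_comm]

/-- (S), in a form that does not mention the hand-in. -/
def SB (C : ℝ≥0∞) : Prop :=
  ∀ a b : ℕ → ℝ≥0, (∑' m, (a m : ℝ≥0∞) ^ (4 / 3 : ℝ)) ≠ ∞ → (∑' n, (b n : ℝ≥0∞) ^ (4 / 3 : ℝ)) ≠ ∞ →
    ∑' m : ℕ, ∑' n : ℕ, (a m : ℝ≥0∞) * b n *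
        ENNReal.ofReal ((((m : ℝ) + 1) + ((n : ℝ) + 1)) ^ (-(1 / 2) : ℝ)) ≤
      C * (∑' m, (a m : ℝ≥0∞) ^ (4 / 3 : ℝ)) ^ (3 / 4 : ℝ) *
        (∑' n, (b n : ℝ≥0∞) ^ (4 / 3 : ℝ)) ^ (3 / 4 : ℝ)

/-- The averages over the cells. -/
theorem cell_seq {h : ℝ} (hh : 0 < h) {f : ℝ → ℝ≥0} (hf : Measurable f)
    (hF : ∫⁻ x, (f x : ℝ≥0∞) ^ (4 / 3 : ℝ) ∂mu ≠ ∞) :
    ∃ a : ℕ → ℝ≥0, (∀ n, (a n : ℝ≥0∞) = ∫⁻ x in cell h n, (f x : ℝ≥0∞)) ∧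
      ∑' n, (a n : ℝ≥0∞) ^ (4 / 3 : ℝ) ≤
        ENNReal.ofReal h ^ (1 / 3 : ℝ) * ∫⁻ x, (f x : ℝ≥0∞) ^ (4 / 3 : ℝ) ∂mu := by
  have hle : ∀ n, ∫⁻ x in cell h n, (f x : ℝ≥0∞) ^ (4 / 3 : ℝ) ≤
      ∫⁻ x, (f x : ℝ≥0∞) ^ (4 / 3 : ℝ) ∂mu := by
    intro n
    rw [lint_cells hh]
    exact ENNReal.le_tsum n
  have hfin : ∀ n, ∫⁻ x in cell h n, (f x : ℝ≥0∞) ≠ ∞ := by
    intro n hn
    have h1 := cell_holder (h := h) hf n
    rw [hn, ENNReal.top_rpow_of_pos (by norm_num), top_le_iff] at h1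
    exact ENNReal.mul_ne_top (ENNReal.rpow_ne_top_of_nonneg (by norm_num) ENNReal.ofReal_ne_top)
      (ne_top_of_le_ne_top hF (hle n)) h1
  refine ⟨fun n => (∫⁻ x in cell h n, (f x : ℝ≥0∞)).toNNReal, fun n =>
    ENNReal.coe_toNNReal (hfin n), ?_⟩
  rw [lint_cells hh, ← ENNReal.tsum_mul_left]
  refine ENNReal.tsum_le_tsum fun n => ?_
  rw [ENNReal.coe_toNNReal (hfin n)]
  exact cell_holder hf n

/-- The discretised kernel. -/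
noncomputable def kh (h x y : ℝ) : ℝ := (h * ⌈x / h⌉₊ + h * ⌈y / h⌉₊) ^ (-(1 / 2) : ℝ)

theorem disc {C : ℝ≥0∞} (hS : SB C) {h : ℝ} (hh : 0 < h) {f g : ℝ → ℝ≥0} (hf : Measurable f)
    (hg : Measurable g) (hF : ∫⁻ x, (f x : ℝ≥0∞) ^ (4 / 3 : ℝ) ∂mu ≠ ∞)
    (hG : ∫⁻ x, (g x : ℝ≥0∞) ^ (4 / 3 : ℝ) ∂mu ≠ ∞) :
    ∫⁻ x, ∫⁻ y, (f x : ℝ≥0∞) * g y * ENNReal.ofReal (kh h x y) ∂mu ∂mu ≤
      C * (∫⁻ x, (f x : ℝ≥0∞) ^ (4 / 3 : ℝ) ∂mu) ^ (3 / 4 : ℝ) *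
        (∫⁻ x, (g x : ℝ≥0∞) ^ (4 / 3 : ℝ) ∂mu) ^ (3 / 4 : ℝ) := by
  obtain ⟨a, ha, ha'⟩ := cell_seq hh hf hF
  obtain ⟨b, hb, hb'⟩ := cell_seq hh hg hG
  set F := ∫⁻ x, (f x : ℝ≥0∞) ^ (4 / 3 : ℝ) ∂mu with hFd
  set G := ∫⁻ x, (g x : ℝ≥0∞) ^ (4 / 3 : ℝ) ∂mu with hGd
  have hht : ENNReal.ofReal h ^ (1 / 3 : ℝ) ≠ ∞ :=
    ENNReal.rpow_ne_top_of_nonneg (by norm_num) ENNReal.ofReal_ne_top
  have hSab := hS a b (ne_top_of_le_ne_top (ENNReal.mul_ne_top hht hF) ha')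
    (ne_top_of_le_ne_top (ENNReal.mul_ne_top hht hG) hb')
  have e1 : ∫⁻ x, ∫⁻ y, (f x : ℝ≥0∞) * g y * ENNReal.ofReal (kh h x y) ∂mu ∂mu =
      ENNReal.ofReal (h ^ (-(1 / 2) : ℝ)) * ∑' m : ℕ, ∑' n : ℕ, (a m : ℝ≥0∞) * b n *
        ENNReal.ofReal ((((m : ℝ) + 1) + ((n : ℝ) + 1)) ^ (-(1 / 2) : ℝ)) := by
    rw [lint_cells hh, ← ENNReal.tsum_mul_left]
    refine tsum_congr fun m => ?_
    rw [← ENNReal.tsum_mul_left]
    have e2 : ∀ x ∈ cell h m, ∫⁻ y, (f x : ℝ≥0∞) * g y * ENNReal.ofReal (kh h x y) ∂mu =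
        (f x : ℝ≥0∞) * ∑' n : ℕ, ENNReal.ofReal (h ^ (-(1 / 2) : ℝ)) *
          (b n * ENNReal.ofReal ((((m : ℝ) + 1) + ((n : ℝ) + 1)) ^ (-(1 / 2) : ℝ))) := by
      intro x hx
      rw [lint_cells hh, ← ENNReal.tsum_mul_left]
      refine tsum_congr fun n => ?_
      have e3 : ∀ y ∈ cell h n, (f x : ℝ≥0∞) * g y * ENNReal.ofReal (kh h x y) =
          ((f x : ℝ≥0∞) * (ENNReal.ofReal (h ^ (-(1 / 2) : ℝ)) *
            ENNReal.ofReal ((((m : ℝ) + 1) + ((n : ℝ) + 1)) ^ (-(1 / 2) : ℝ)))) * g y := by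
        intro y hy
        have e4 : kh h x y = h ^ (-(1 / 2) : ℝ) *
            (((m : ℝ) + 1) + ((n : ℝ) + 1)) ^ (-(1 / 2) : ℝ) := by
          unfold kh
          rw [ceil_cell hh hx, ceil_cell hh hy, ← Real.mul_rpow hh.le (by positivity)]
          congr 1
          push_cast
          ring
        rw [e4, ENNReal.ofReal_mul (by positivity)]
        ring
      rw [setLIntegral_congr_fun (measurableSet_cell h n) e3, lintegral_const_mul _ (by fun_prop),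
        ← hb n]
      ring
    rw [setLIntegral_congr_fun (measurableSet_cell h m) e2, lintegral_mul_const _ (by fun_prop),
      ← ha m, ← ENNReal.tsum_mul_left]
    refine tsum_congr fun n => ?_
    ring
  rw [e1]
  refine (mul_le_mul_right hSab _).trans ?_
  have hmono : ∀ {u v : ℝ≥0∞}, u ≤ ENNReal.ofReal h ^ (1 / 3 : ℝ) * v →
      u ^ (3 / 4 : ℝ) ≤ ENNReal.ofReal h ^ (1 / 4 : ℝ) * v ^ (3 / 4 : ℝ) := by
    intro u v huv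
    refine (ENNReal.rpow_le_rpow huv (by norm_num)).trans (le_of_eq ?_)
    rw [ENNReal.mul_rpow_of_nonneg _ _ (by norm_num), ← ENNReal.rpow_mul]
    norm_num
  have hA := hmono ha'
  have hB := hmono hb'
  have hone : ENNReal.ofReal (h ^ (-(1 / 2) : ℝ)) *
      (ENNReal.ofReal h ^ (1 / 4 : ℝ) * ENNReal.ofReal h ^ (1 / 4 : ℝ)) = 1 := by
    rw [ENNReal.ofReal_rpow_of_nonneg hh.le (by norm_num), ← ENNReal.ofReal_mul (by positivity),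
      ← ENNReal.ofReal_mul (by positivity), ← Real.rpow_add hh, ← Real.rpow_add hh]
    norm_num
  calc ENNReal.ofReal (h ^ (-(1 / 2) : ℝ)) * (C * (∑' m, (a m : ℝ≥0∞) ^ (4 / 3 : ℝ)) ^ (3 / 4 : ℝ) *
        (∑' n, (b n : ℝ≥0∞) ^ (4 / 3 : ℝ)) ^ (3 / 4 : ℝ))
      ≤ ENNReal.ofReal (h ^ (-(1 / 2) : ℝ)) * (C * (ENNReal.ofReal h ^ (1 / 4 : ℝ) * F ^ (3 / 4 : ℝ)) *
        (ENNReal.ofReal h ^ (1 / 4 : ℝ) * G ^ (3 / 4 : ℝ))) := by gcongr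
    _ = (ENNReal.ofReal (h ^ (-(1 / 2) : ℝ)) *
      (ENNReal.ofReal h ^ (1 / 4 : ℝ) * ENNReal.ofReal h ^ (1 / 4 : ℝ))) *
        (C * F ^ (3 / 4 : ℝ) * G ^ (3 / 4 : ℝ)) := by ring
    _ = _ := by rw [hone, one_mul]

theorem kh_tendsto {x y : ℝ} (hx : 0 < x) (hy : 0 < y) :
    Tendsto (fun j : ℕ => kh (1 / ((j : ℝ) + 1)) x y) atTop (𝓝 ((x + y) ^ (-(1 / 2) : ℝ))) := by
  have h1 : ∀ z : ℝ, 0 < z → Tendsto (fun j : ℕ => (1 / ((j : ℝ) + 1)) *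
      (⌈z / (1 / ((j : ℝ) + 1))⌉₊ : ℝ)) atTop (𝓝 z) := by
    intro z hz
    have h0 : Tendsto (fun j : ℕ => z + 1 / ((j : ℝ) + 1)) atTop (𝓝 (z + 0)) :=
      tendsto_const_nhds.add tendsto_one_div_add_atTop_nhds_zero_nat
    rw [add_zero] at h0
    refine tendsto_of_tendsto_of_tendsto_of_le_of_le tendsto_const_nhds h0 (fun j => ?_) fun j => ?_
    · have hj : (0:ℝ) < 1 / ((j : ℝ) + 1) := by positivity
      have := Nat.le_ceil (z / (1 / ((j : ℝ) + 1)))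
      rw [div_le_iff₀ hj] at this
      simp only
      linarith
    · have hj : (0:ℝ) < 1 / ((j : ℝ) + 1) := by positivity
      have := (Nat.ceil_lt_add_one (show 0 ≤ z / (1 / ((j : ℝ) + 1)) by positivity)).le
      have h2 := mul_le_mul_of_nonneg_left this hj.le
      rw [mul_add, mul_div_cancel₀ _ hj.ne', mul_one] at h2
      exact h2
  unfold kh
  exact ((h1 x hx).add (h1 y hy)).rpow_const (Or.inl (by positivity))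

/-- (S) implies (I) with the same constant. -/
theorem integral_of_series {C : ℝ≥0∞} (hS : SB C) {f g : ℝ → ℝ≥0} (hf : Measurable f)
    (hg : Measurable g) (hF : ∫⁻ x, (f x : ℝ≥0∞) ^ (4 / 3 : ℝ) ∂mu ≠ ∞)
    (hG : ∫⁻ x, (g x : ℝ≥0∞) ^ (4 / 3 : ℝ) ∂mu ≠ ∞) :
    ∫⁻ x, ∫⁻ y, (f x : ℝ≥0∞) * g y * ENNReal.ofReal ((x + y) ^ (-(1 / 2) : ℝ)) ∂mu ∂mu ≤
      C * (∫⁻ x, (f x : ℝ≥0∞) ^ (4 / 3 : ℝ) ∂mu) ^ (3 / 4 : ℝ) *
        (∫⁻ x, (g x : ℝ≥0∞) ^ (4 / 3 : ℝ) ∂mu) ^ (3 / 4 : ℝ) := by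
  have hkm : ∀ h : ℝ, Measurable fun z : ℝ × ℝ => (f z.1 : ℝ≥0∞) * g z.2 *
      ENNReal.ofReal (kh h z.1 z.2) := by
    intro h
    have h1 : Measurable fun z : ℝ × ℝ => kh h z.1 z.2 := by
      unfold kh
      have c1 : Measurable fun z : ℝ × ℝ => ((⌈z.1 / h⌉₊ : ℕ) : ℝ) :=
        measurable_from_nat.comp (Nat.measurable_ceil.comp (measurable_fst.div_const h))
      have c2 : Measurable fun z : ℝ × ℝ => ((⌈z.2 / h⌉₊ : ℕ) : ℝ) :=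
        measurable_from_nat.comp (Nat.measurable_ceil.comp (measurable_snd.div_const h))
      exact (((c1.const_mul h).add (c2.const_mul h)).pow_const _)
    have h2 : Measurable fun z : ℝ × ℝ => (f z.1 : ℝ≥0∞) * g z.2 := by fun_prop
    exact h2.mul h1.ennreal_ofReal
  have hmeas : Measurable fun z : ℝ × ℝ => (f z.1 : ℝ≥0∞) * g z.2 *
      ENNReal.ofReal ((z.1 + z.2) ^ (-(1 / 2) : ℝ)) := by fun_prop
  have hpos : ∀ᵐ z ∂(mu.prod mu), 0 < z.1 ∧ 0 < z.2 := by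
    have : (mu.prod mu) = (volume.prod volume).restrict (Ioi (0:ℝ) ×ˢ Ioi (0:ℝ)) :=
      Measure.prod_restrict _ _
    rw [this]
    filter_upwards [ae_restrict_mem (measurableSet_Ioi.prod measurableSet_Ioi)] with z hz
    exact hz
  rw [← lintegral_prod (fun z : ℝ × ℝ => (f z.1 : ℝ≥0∞) * g z.2 *
      ENNReal.ofReal ((z.1 + z.2) ^ (-(1 / 2) : ℝ))) hmeas.aemeasurable]
  have e1 : ∫⁻ z, (f z.1 : ℝ≥0∞) * g z.2 * ENNReal.ofReal ((z.1 + z.2) ^ (-(1 / 2) : ℝ))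
      ∂(mu.prod mu) = ∫⁻ z, liminf (fun j : ℕ => (f z.1 : ℝ≥0∞) * g z.2 *
        ENNReal.ofReal (kh (1 / ((j : ℝ) + 1)) z.1 z.2)) atTop ∂(mu.prod mu) := by
    refine lintegral_congr_ae ?_
    filter_upwards [hpos] with z hz
    refine (Tendsto.liminf_eq ?_).symm
    exact ENNReal.Tendsto.const_mul (ENNReal.tendsto_ofReal (kh_tendsto hz.1 hz.2))
      (Or.inr (ENNReal.mul_ne_top ENNReal.coe_ne_top ENNReal.coe_ne_top))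
  rw [e1]
  refine (lintegral_liminf_le fun j => hkm _).trans ?_
  refine (liminf_le_liminf (v := fun _ => C *
    (∫⁻ x, (f x : ℝ≥0∞) ^ (4 / 3 : ℝ) ∂mu) ^ (3 / 4 : ℝ) *
        (∫⁻ x, (g x : ℝ≥0∞) ^ (4 / 3 : ℝ) ∂mu) ^ (3 / 4 : ℝ))
    (Eventually.of_forall fun j => ?_)).trans (le_of_eq (liminf_const _))
  have := disc hS (show (0:ℝ) < 1 / ((j : ℝ) + 1) by positivity) hf hg hF hG
  rw [← lintegral_prod (fun z : ℝ × ℝ => (f z.1 : ℝ≥0∞) * g z.2 *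
      ENNReal.ofReal (kh (1 / ((j : ℝ) + 1)) z.1 z.2)) (hkm _).aemeasurable] at this
  exact this

end Pool.Agent.Helper190H
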