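import Pool.Agent.Helper190H.Dens

open MeasureTheory Set Filter Topology NNReal ENNReal

namespace Pool.Agent.Helper190H

theorem pt {p r x y : ℝ} (hp : 0 ≤ p) (hr : 0 ≤ r) (hx : 0 < x) (hy : 0 < y) :
    √(√(p * r) * √(p * kp x y)) * √(√(p * r) * √(r * kp y x)) =
      (p * r) ^ (3 / 4 : ℝ) * (√Real.pi)⁻¹ * (x + y) ^ (-(1 / 2) : ℝ) := by
  have hpi := Real.pi_pos
  have hk : kp x y * kp y x = (1 / (Real.pi * (x + y))) ^ 2 := by
    rw [kp_eq hx hy, kp_eq hy hx]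
    unfold ker
    have h1 : 0 < √x := Real.sqrt_pos.2 hx
    have h2 : 0 < √y := Real.sqrt_pos.2 hy
    have h3 : 0 < x + y := by positivity
    rw [add_comm y x]
    field_simp
  have hk1 : 0 ≤ kp x y := abs_nonneg _
  have hk2 : 0 ≤ kp y x := abs_nonneg _
  have hpr : 0 ≤ p * r := mul_nonneg hp hr
  have hxy : 0 < x + y := by positivity
  rw [← Real.sqrt_mul (by positivity)]
  have e1 : √(p * r) * √(p * kp x y) * (√(p * r) * √(r * kp y x)) =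
      p * r * √(p * r) * (1 / (Real.pi * (x + y))) := by
    have e2 : √(p * kp x y) * √(r * kp y x) = √(p * r) * (1 / (Real.pi * (x + y))) := by
      rw [← Real.sqrt_mul (by positivity)]
      have : p * kp x y * (r * kp y x) = (p * r) * (1 / (Real.pi * (x + y))) ^ 2 := by
        rw [← hk]; ring
      rw [this, Real.sqrt_mul hpr, Real.sqrt_sq (by positivity)]
    calc _ = (√(p * r) * √(p * r)) * (√(p * kp x y) * √(r * kp y x)) := by ring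
      _ = _ := by rw [e2, Real.mul_self_sqrt hpr]; ring
  rw [e1, Real.sqrt_mul (by positivity)]
  have e3 : √(p * r * √(p * r)) = (p * r) ^ (3 / 4 : ℝ) := by
    have : p * r * √(p * r) = (p * r) ^ (3 / 2 : ℝ) := by
      rw [Real.sqrt_eq_rpow]
      nth_rewrite 1 [← Real.rpow_one (p * r)]
      rw [← Real.rpow_add_of_nonneg hpr (by norm_num) (by norm_num)]
      norm_num
    rw [this, Real.sqrt_eq_rpow, ← Real.rpow_mul hpr]
    norm_num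
  have e4 : √(1 / (Real.pi * (x + y))) = (√Real.pi)⁻¹ * (x + y) ^ (-(1 / 2) : ℝ) := by
    rw [one_div, Real.sqrt_inv, Real.sqrt_mul hpi.le, mul_inv, Real.rpow_neg hxy.le,
      ← Real.sqrt_eq_rpow]
  rw [e3, e4, mul_assoc]

theorem ofReal_coe_rpow (u : ℝ≥0) (s : ℝ) (hs : 0 ≤ s) :
    ENNReal.ofReal ((u : ℝ) ^ s) = (u : ℝ≥0∞) ^ s := by
  rw [← ENNReal.ofReal_rpow_of_nonneg u.coe_nonneg hs, ENNReal.ofReal_coe_nnreal]

/-- Normalisation. -/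
theorem normal {f : ℝ → ℝ≥0} (hf : Measurable f) {F : ℝ≥0∞}
    (hF : ∫⁻ x, (f x : ℝ≥0∞) ^ (4 / 3 : ℝ) ∂mu = F) (h0 : F ≠ 0) (h1 : F ≠ ∞) :
    Measurable (fun x => (f x : ℝ) ^ (4 / 3 : ℝ) / F.toReal) ∧
    Integrable (fun x => (f x : ℝ) ^ (4 / 3 : ℝ) / F.toReal) mu ∧
    ∫ x, (f x : ℝ) ^ (4 / 3 : ℝ) / F.toReal ∂mu = 1 := by
  have hFp : 0 < F.toReal := ENNReal.toReal_pos h0 h1
  have hm : Measurable (fun x => (f x : ℝ) ^ (4 / 3 : ℝ) / F.toReal) := by fun_prop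
  have hnn : ∀ x, 0 ≤ (f x : ℝ) ^ (4 / 3 : ℝ) / F.toReal := fun x => by positivity
  have hl : ∫⁻ x, ENNReal.ofReal ((f x : ℝ) ^ (4 / 3 : ℝ) / F.toReal) ∂mu = 1 := by
    have : ∀ x, ENNReal.ofReal ((f x : ℝ) ^ (4 / 3 : ℝ) / F.toReal) =
        (f x : ℝ≥0∞) ^ (4 / 3 : ℝ) * F⁻¹ := by
      intro x
      rw [ENNReal.ofReal_div_of_pos hFp, ofReal_coe_rpow _ _ (by norm_num), ENNReal.ofReal_toReal h1,
        div_eq_mul_inv]
    simp_rw [this]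
    rw [lintegral_mul_const' _ _ (ENNReal.inv_ne_top.2 h0), hF, ENNReal.mul_inv_cancel h0 h1]
  refine ⟨hm, ?_, ?_⟩
  · rw [← lintegral_ofReal_ne_top_iff_integrable hm.aestronglyMeasurable
      (Eventually.of_forall hnn), hl]
    exact ENNReal.one_ne_top
  · rw [integral_eq_lintegral_of_nonneg_ae (Eventually.of_forall hnn) hm.aestronglyMeasurable, hl]
    simp

theorem ineqI {f g : ℝ → ℝ≥0} (hf : Measurable f) (hg : Measurable g)
    (hF : ∫⁻ x, (f x : ℝ≥0∞) ^ (4 / 3 : ℝ) ∂mu ≠ ∞)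
    (hG : ∫⁻ x, (g x : ℝ≥0∞) ^ (4 / 3 : ℝ) ∂mu ≠ ∞) :
    ∫⁻ x, ∫⁻ y, (f x : ℝ≥0∞) * g y * ENNReal.ofReal ((x + y) ^ (-(1 / 2) : ℝ)) ∂mu ∂mu ≤
      ENNReal.ofReal (√(15 * Real.pi) / 4) * (∫⁻ x, (f x : ℝ≥0∞) ^ (4 / 3 : ℝ) ∂mu) ^ (3 / 4 : ℝ) *
        (∫⁻ x, (g x : ℝ≥0∞) ^ (4 / 3 : ℝ) ∂mu) ^ (3 / 4 : ℝ) := by
  set F := ∫⁻ x, (f x : ℝ≥0∞) ^ (4 / 3 : ℝ) ∂mu with hFd
  set G := ∫⁻ x, (g x : ℝ≥0∞) ^ (4 / 3 : ℝ) ∂mu with hGd
  have hfm : Measurable fun x => (f x : ℝ≥0∞) ^ (4 / 3 : ℝ) := by fun_prop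
  have hgm : Measurable fun x => (g x : ℝ≥0∞) ^ (4 / 3 : ℝ) := by fun_prop
  by_cases h0 : F = 0
  · have h1 : ∀ᵐ x ∂mu, f x = 0 := by
      have := (lintegral_eq_zero_iff hfm).1 (hFd.symm.trans h0)
      filter_upwards [this] with x hx
      simpa [ENNReal.rpow_eq_zero_iff] using hx
    have h2 : ∫⁻ x, ∫⁻ y, (f x : ℝ≥0∞) * g y * ENNReal.ofReal ((x + y) ^ (-(1 / 2) : ℝ)) ∂mu ∂mu
        = 0 := by
      rw [← lintegral_zero (μ := mu)]
      refine lintegral_congr_ae ?_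
      filter_upwards [h1] with x hx
      simp [hx]
    rw [h2]
    exact zero_le
  by_cases h0' : G = 0
  · have h1 : ∀ᵐ x ∂mu, g x = 0 := by
      have := (lintegral_eq_zero_iff hgm).1 (hGd.symm.trans h0')
      filter_upwards [this] with x hx
      simpa [ENNReal.rpow_eq_zero_iff] using hx
    have h2 : ∫⁻ x, ∫⁻ y, (f x : ℝ≥0∞) * g y * ENNReal.ofReal ((x + y) ^ (-(1 / 2) : ℝ)) ∂mu ∂mu
        = 0 := by
      rw [← lintegral_zero (μ := mu)]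
      refine lintegral_congr fun x => ?_
      rw [← lintegral_zero (μ := mu)]
      refine lintegral_congr_ae ?_
      filter_upwards [h1] with y hy
      simp [hy]
    rw [h2]
    exact zero_le
  have hFp : 0 < F.toReal := ENNReal.toReal_pos h0 hF
  have hGp : 0 < G.toReal := ENNReal.toReal_pos h0' hG
  obtain ⟨p1, p2, p3⟩ := normal hf hFd.symm h0 hF
  obtain ⟨r1, r2, r3⟩ := normal hg hGd.symm h0' hG
  have main := mainDens (P := fun x => (f x : ℝ) ^ (4 / 3 : ℝ) / F.toReal)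
    (R := fun x => (g x : ℝ) ^ (4 / 3 : ℝ) / G.toReal) (fun x => by positivity)
    (fun x => by positivity) p1 r1 p2 r2 p3 r3
  set K : ℝ := √Real.pi * F.toReal ^ (3 / 4 : ℝ) * G.toReal ^ (3 / 4 : ℝ) with hK
  have hK0 : 0 ≤ K := by positivity
  have hmeas : Measurable fun z : ℝ × ℝ => (f z.1 : ℝ≥0∞) * g z.2 *
      ENNReal.ofReal ((z.1 + z.2) ^ (-(1 / 2) : ℝ)) := by fun_prop
  have e1 : ∫⁻ x, ∫⁻ y, (f x : ℝ≥0∞) * g y * ENNReal.ofReal ((x + y) ^ (-(1 / 2) : ℝ)) ∂mu ∂mu =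
      ∫⁻ z, (f z.1 : ℝ≥0∞) * g z.2 * ENNReal.ofReal ((z.1 + z.2) ^ (-(1 / 2) : ℝ))
        ∂(mu.prod mu) := by
    rw [lintegral_prod _ hmeas.aemeasurable]
  have hpos : ∀ᵐ z ∂(mu.prod mu), 0 < z.1 ∧ 0 < z.2 := by
    have : (mu.prod mu) = (volume.prod volume).restrict (Ioi (0:ℝ) ×ˢ Ioi (0:ℝ)) :=
      Measure.prod_restrict _ _
    rw [this]
    filter_upwards [ae_restrict_mem (measurableSet_Ioi.prod measurableSet_Ioi)] with z hz
    exact hz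
  have e2 : ∫⁻ z, (f z.1 : ℝ≥0∞) * g z.2 * ENNReal.ofReal ((z.1 + z.2) ^ (-(1 / 2) : ℝ))
        ∂(mu.prod mu) = ∫⁻ z, ENNReal.ofReal K * ENNReal.ofReal
        (√(√((f z.1 : ℝ) ^ (4 / 3 : ℝ) / F.toReal * ((g z.2 : ℝ) ^ (4 / 3 : ℝ) / G.toReal)) *
          √((f z.1 : ℝ) ^ (4 / 3 : ℝ) / F.toReal * kp z.1 z.2)) *
        √(√((f z.1 : ℝ) ^ (4 / 3 : ℝ) / F.toReal * ((g z.2 : ℝ) ^ (4 / 3 : ℝ) / G.toReal)) *
          √((g z.2 : ℝ) ^ (4 / 3 : ℝ) / G.toReal * kp z.2 z.1))) ∂(mu.prod mu) := by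
    refine lintegral_congr_ae ?_
    filter_upwards [hpos] with z hz
    rw [pt (by positivity) (by positivity) hz.1 hz.2, ← ENNReal.ofReal_mul hK0]
    have : K * (((f z.1 : ℝ) ^ (4 / 3 : ℝ) / F.toReal * ((g z.2 : ℝ) ^ (4 / 3 : ℝ) / G.toReal)) ^
        (3 / 4 : ℝ) * (√Real.pi)⁻¹ * (z.1 + z.2) ^ (-(1 / 2) : ℝ)) =
        (f z.1 : ℝ) * (g z.2 : ℝ) * (z.1 + z.2) ^ (-(1 / 2) : ℝ) := by
      rw [Real.mul_rpow (by positivity) (by positivity), Real.div_rpow (by positivity) hFp.le,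
        Real.div_rpow (by positivity) hGp.le, ← Real.rpow_mul (by positivity),
        ← Real.rpow_mul (by positivity)]
      norm_num
      rw [hK]
      have hpi : 0 < √Real.pi := Real.sqrt_pos.2 Real.pi_pos
      have hF2 : 0 < F.toReal ^ (3 / 4 : ℝ) := by positivity
      have hG2 : 0 < G.toReal ^ (3 / 4 : ℝ) := by positivity
      field_simp
    rw [this, ENNReal.ofReal_mul (by positivity), ENNReal.ofReal_mul (by positivity),
      ENNReal.ofReal_coe_nnreal, ENNReal.ofReal_coe_nnreal]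
  rw [e1, e2, lintegral_const_mul' _ _ ENNReal.ofReal_ne_top]
  refine (mul_le_mul_right main _).trans ?_
  rw [← ENNReal.ofReal_mul hK0]
  have e3 : F ^ (3 / 4 : ℝ) = ENNReal.ofReal (F.toReal ^ (3 / 4 : ℝ)) := by
    rw [← ENNReal.ofReal_rpow_of_nonneg hFp.le (by norm_num), ENNReal.ofReal_toReal hF]
  have e4 : G ^ (3 / 4 : ℝ) = ENNReal.ofReal (G.toReal ^ (3 / 4 : ℝ)) := by
    rw [← ENNReal.ofReal_rpow_of_nonneg hGp.le (by norm_num), ENNReal.ofReal_toReal hG]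
  rw [e3, e4, ← ENNReal.ofReal_mul (by positivity), ← ENNReal.ofReal_mul (by positivity)]
  refine ENNReal.ofReal_le_ofReal (le_of_eq ?_)
  rw [hK, Real.sqrt_mul (by norm_num)]
  ring

end Pool.Agent.Helper190H
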