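import Pool.Agent.Helper190H.Dens

open MeasureTheory Set Filter Topology NNReal ENNReal

namespace Pool.Agent.Helper190H

/-- Integral of a nonnegative derivative over `(0, ∞)`, as a lower integral. -/
theorem lint_deriv {G g : ℝ → ℝ} {l : ℝ} (hc : ContinuousWithinAt G (Ici 0) 0)
    (hd : ∀ x ∈ Ioi (0:ℝ), HasDerivAt G (g x) x) (hg : ∀ x ∈ Ioi (0:ℝ), 0 ≤ g x)
    (ht : Tendsto G atTop (𝓝 l)) :
    ∫⁻ x, ENNReal.ofReal (g x) ∂mu = ENNReal.ofReal (l - G 0) := by
  have hi : IntegrableOn g (Ioi 0) := integrableOn_Ioi_deriv_of_nonneg hc hd hg ht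
  rw [← integral_Ioi_of_hasDerivAt_of_nonneg hc hd hg ht,
    ofReal_integral_eq_lintegral_ofReal hi]
  filter_upwards [ae_restrict_mem measurableSet_Ioi] with x hx
  exact hg x hx

/-- The test function. -/
noncomputable def tf (x : ℝ) : ℝ := (1 + x) ^ (-(3 / 2) : ℝ)

theorem tf_norm : ∫⁻ x, ENNReal.ofReal (tf x ^ (4 / 3 : ℝ)) ∂mu = 1 := by
  have h1 : ∫⁻ x, ENNReal.ofReal (tf x ^ (4 / 3 : ℝ)) ∂mu =
      ∫⁻ x, ENNReal.ofReal (1 / (1 + x) ^ 2) ∂mu := by
    refine lintegral_congr_ae ?_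
    filter_upwards [ae_restrict_mem measurableSet_Ioi] with x hx
    have hx' : (0:ℝ) < 1 + x := by
      have : (0:ℝ) < x := hx
      linarith
    unfold tf
    rw [← Real.rpow_mul hx'.le, one_div]
    norm_num
  have hd : ∀ x ∈ Ioi (0:ℝ), HasDerivAt (fun x : ℝ => -(1 / (1 + x))) (1 / (1 + x) ^ 2) x := by
    intro x hx
    have hx' : (1 + x) ≠ 0 := by
      have : (0:ℝ) < x := hx
      positivity
    have h2 : HasDerivAt (fun x : ℝ => 1 + x) 1 x := (hasDerivAt_id x).const_add 1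
    have h3 : HasDerivAt (fun x : ℝ => -(1 + x)⁻¹) (-(-1 / (1 + x) ^ 2)) x := (h2.inv hx').neg
    have e : (fun x : ℝ => -(1 / (1 + x))) = fun x => -(1 + x)⁻¹ := by
      funext x; rw [one_div]
    have e2 : 1 / (1 + x) ^ 2 = -(-1 / (1 + x) ^ 2) := by ring
    rw [e, e2]
    exact h3
  have ht : Tendsto (fun x : ℝ => -(1 / (1 + x))) atTop (𝓝 0) := by
    have : Tendsto (fun x : ℝ => 1 + x) atTop atTop := tendsto_atTop_add_const_left _ _ tendsto_id
    have h4 := (this.inv_tendsto_atTop).neg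
    simpa using h4
  have hc : ContinuousWithinAt (fun x : ℝ => -(1 / (1 + x))) (Ici 0) 0 := by
    apply ContinuousAt.continuousWithinAt
    have : (1 + (0:ℝ)) ≠ 0 := by norm_num
    fun_prop (disch := assumption)
  rw [h1, lint_deriv hc hd (fun x _ => by positivity) ht]
  norm_num

/-- The inner integral. -/
theorem inner {x : ℝ} (hx : 0 < x) (hx1 : x ≠ 1) :
    ∫⁻ y, ENNReal.ofReal (tf y * (x + y) ^ (-(1 / 2) : ℝ)) ∂mu = ENNReal.ofReal (2 / (1 + √x)) := by
  have hsub : 1 - x ≠ 0 := sub_ne_zero.2 (Ne.symm hx1)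
  have hd : ∀ y ∈ Ioi (0:ℝ), HasDerivAt (fun y : ℝ => 2 / (1 - x) * (√(x + y) / √(1 + y)))
      (tf y * (x + y) ^ (-(1 / 2) : ℝ)) y := by
    intro y hy
    have hy0 : (0:ℝ) < y := hy
    have h1 : 0 < x + y := by positivity
    have h2 : 0 < 1 + y := by positivity
    have d1 : HasDerivAt (fun y : ℝ => √(x + y)) (1 / (2 * √(x + y))) y :=
      ((hasDerivAt_id y).const_add x).sqrt h1.ne'
    have d2 : HasDerivAt (fun y : ℝ => √(1 + y)) (1 / (2 * √(1 + y))) y :=
      ((hasDerivAt_id y).const_add 1).sqrt h2.ne'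
    have s2 : 0 < √(1 + y) := Real.sqrt_pos.2 h2
    have s1 : 0 < √(x + y) := Real.sqrt_pos.2 h1
    have d3 := (d1.div d2 s2.ne').const_mul (2 / (1 - x))
    have e : tf y * (x + y) ^ (-(1 / 2) : ℝ) = 2 / (1 - x) *
        ((1 / (2 * √(x + y)) * √(1 + y) - √(x + y) * (1 / (2 * √(1 + y)))) / √(1 + y) ^ 2) := by
      have r1 : tf y = 1 / √(1 + y) ^ 3 := by
        unfold tf
        rw [Real.rpow_neg h2.le, Real.sqrt_eq_rpow, ← Real.rpow_natCast, ← Real.rpow_mul h2.le]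
        norm_num
      have r2 : (x + y) ^ (-(1 / 2) : ℝ) = 1 / √(x + y) := by
        rw [Real.rpow_neg h1.le, ← Real.sqrt_eq_rpow, one_div]
      rw [r1, r2]
      have q1 : √(x + y) ^ 2 = x + y := Real.sq_sqrt h1.le
      have q2 : √(1 + y) ^ 2 = 1 + y := Real.sq_sqrt h2.le
      have q3 : 1 - x = √(1 + y) ^ 2 - √(x + y) ^ 2 := by rw [q1, q2]; ring
      have q4 : √(1 + y) ^ 2 - √(x + y) ^ 2 ≠ 0 := by rw [← q3]; exact hsub
      rw [q3]
      field_simp
    rw [e]
    exact d3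
  have hg : ∀ y ∈ Ioi (0:ℝ), 0 ≤ tf y * (x + y) ^ (-(1 / 2) : ℝ) := by
    intro y hy
    have hy0 : (0:ℝ) < y := hy
    unfold tf
    positivity
  have hc : ContinuousWithinAt (fun y : ℝ => 2 / (1 - x) * (√(x + y) / √(1 + y))) (Ici 0) 0 := by
    apply ContinuousAt.continuousWithinAt
    have : √(1 + (0:ℝ)) ≠ 0 := by norm_num
    fun_prop (disch := assumption)
  have ht : Tendsto (fun y : ℝ => 2 / (1 - x) * (√(x + y) / √(1 + y))) atTop
      (𝓝 (2 / (1 - x) * 1)) := by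
    refine Tendsto.const_mul _ ?_
    have h1 : Tendsto (fun y : ℝ => 1 + y) atTop atTop :=
      tendsto_atTop_add_const_left _ _ tendsto_id
    have h2 : Tendsto (fun y : ℝ => 1 - (1 - x) * (1 + y)⁻¹) atTop (𝓝 (1 - (1 - x) * 0)) :=
      tendsto_const_nhds.sub ((h1.inv_tendsto_atTop).const_mul _)
    have h3 := h2.sqrt
    simp only [mul_zero, sub_zero, Real.sqrt_one] at h3
    refine h3.congr' ?_
    filter_upwards [eventually_gt_atTop 0] with y hy
    rw [← Real.sqrt_div (by positivity)]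
    congr 1
    have : (1 + y) ≠ 0 := by positivity
    field_simp
    ring
  rw [lint_deriv hc hd hg ht]
  congr 1
  simp only [add_zero, Real.sqrt_one, div_one, mul_one]
  have s : 0 ≤ √x := Real.sqrt_nonneg x
  have q1 : √x ^ 2 = x := Real.sq_sqrt hx.le
  have q3 : 1 - x = 1 - √x ^ 2 := by rw [q1]
  have q5 : 1 - √x ≠ 0 := by
    intro h
    apply hsub
    rw [q3]
    have : √x = 1 := by linarith
    rw [this]; norm_num
  have q6 : 1 + √x ≠ 0 := by positivity
  have q7 : 1 - √x ^ 2 = (1 - √x) * (1 + √x) := by ring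
  rw [q3, q7]
  field_simp

/-- The outer integral. -/
theorem outer : ∫⁻ x, ENNReal.ofReal (tf x * (2 / (1 + √x))) ∂mu =
    ENNReal.ofReal (4 - 2 * √2 * Real.arsinh 1) := by
  have hd : ∀ x ∈ Ioi (0:ℝ), HasDerivAt (fun x : ℝ => √2 * Real.arsinh ((1 - √x) / (1 + √x)) +
      2 * ((√x - 1) / √(1 + x))) (tf x * (2 / (1 + √x))) x := by
    intro x hx
    have hx0 : (0:ℝ) < x := hx
    have h2 : 0 < 1 + x := by positivity
    have su : 0 < √x := Real.sqrt_pos.2 hx0
    have d0 : HasDerivAt (fun x : ℝ => √x) (1 / (2 * √x)) x := Real.hasDerivAt_sqrt hx0.ne'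
    have d2 : HasDerivAt (fun x : ℝ => √(1 + x)) (1 / (2 * √(1 + x))) x :=
      ((hasDerivAt_id x).const_add 1).sqrt h2.ne'
    have s2 : 0 < √(1 + x) := Real.sqrt_pos.2 h2
    have d3 : HasDerivAt (fun x : ℝ => (1 - √x) / (1 + √x))
        ((-(1 / (2 * √x)) * (1 + √x) - (1 - √x) * (1 / (2 * √x))) / (1 + √x) ^ 2) x :=
      (d0.const_sub 1).div (d0.const_add 1) (by positivity)
    have d4 := (d3.arsinh).const_mul √2
    have d5 : HasDerivAt (fun x : ℝ => (√x - 1) / √(1 + x))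
        ((1 / (2 * √x) * √(1 + x) - (√x - 1) * (1 / (2 * √(1 + x)))) / √(1 + x) ^ 2) x :=
      (d0.sub_const 1).div d2 s2.ne'
    have d6 := d4.add (d5.const_mul 2)
    have e : tf x * (2 / (1 + √x)) = √2 * ((√(1 + ((1 - √x) / (1 + √x)) ^ 2))⁻¹ •
        ((-(1 / (2 * √x)) * (1 + √x) - (1 - √x) * (1 / (2 * √x))) / (1 + √x) ^ 2)) +
        2 * ((1 / (2 * √x) * √(1 + x) - (√x - 1) * (1 / (2 * √(1 + x)))) / √(1 + x) ^ 2) := by
      have r1 : tf x = 1 / √(1 + x) ^ 3 := by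
        unfold tf
        rw [Real.rpow_neg h2.le, Real.sqrt_eq_rpow, ← Real.rpow_natCast, ← Real.rpow_mul h2.le]
        norm_num
      have q2 : √(1 + x) ^ 2 = 1 + √x ^ 2 := by rw [Real.sq_sqrt h2.le, Real.sq_sqrt hx0.le]
      have r3 : √(1 + ((1 - √x) / (1 + √x)) ^ 2) = √2 * √(1 + x) / (1 + √x) := by
        rw [Real.sqrt_eq_iff_mul_self_eq (by positivity) (by positivity)]
        have t2 : √2 ^ 2 = 2 := Real.sq_sqrt (by norm_num)
        have : √2 * √(1 + x) / (1 + √x) * (√2 * √(1 + x) / (1 + √x)) =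
            (√2 ^ 2 * √(1 + x) ^ 2) / (1 + √x) ^ 2 := by
          field_simp
        rw [this, t2, q2]
        field_simp
        ring
      rw [r1, r3, smul_eq_mul]
      have t2 : 0 < √2 := by positivity
      set u := √x with hu
      set v := √(1 + x) with hv
      have q4 : v ^ 2 = 1 + u ^ 2 := q2
      field_simp
      nlinarith [q4]
    rw [e]
    exact d6
  have hg : ∀ x ∈ Ioi (0:ℝ), 0 ≤ tf x * (2 / (1 + √x)) := by
    intro x hx
    have hx0 : (0:ℝ) < x := hx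
    unfold tf
    positivity
  have hc : ContinuousWithinAt (fun x : ℝ => √2 * Real.arsinh ((1 - √x) / (1 + √x)) +
      2 * ((√x - 1) / √(1 + x))) (Ici 0) 0 := by
    apply ContinuousAt.continuousWithinAt
    have h1 : √(1 + (0:ℝ)) ≠ 0 := by norm_num
    have h2 : 1 + √(0:ℝ) ≠ 0 := by norm_num
    have c1 : ContinuousAt (fun x : ℝ => (1 - √x) / (1 + √x)) 0 := by
      fun_prop (disch := assumption)
    have c2 : ContinuousAt (fun x : ℝ => (√x - 1) / √(1 + x)) 0 := by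
      fun_prop (disch := assumption)
    exact ((Real.continuous_arsinh.continuousAt.comp c1).const_mul _).add (c2.const_mul _)
  have ht : Tendsto (fun x : ℝ => √2 * Real.arsinh ((1 - √x) / (1 + √x)) +
      2 * ((√x - 1) / √(1 + x))) atTop (𝓝 (√2 * Real.arsinh (-1) + 2 * 1)) := by
    have hs : Tendsto (fun x : ℝ => √x) atTop atTop := Real.tendsto_sqrt_atTop
    have h1 : Tendsto (fun x : ℝ => (1 - √x) / (1 + √x)) atTop (𝓝 (-1)) := by
      have h2 : Tendsto (fun x : ℝ => -1 + 2 * (1 + √x)⁻¹) atTop (𝓝 (-1 + 2 * 0)) :=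
        tendsto_const_nhds.add (((tendsto_atTop_add_const_left _ 1 hs).inv_tendsto_atTop).const_mul _)
      rw [mul_zero, add_zero] at h2
      refine h2.congr fun x => ?_
      have : 1 + √x ≠ 0 := by positivity
      field_simp
      ring
    have h3 : Tendsto (fun x : ℝ => (√x - 1) / √(1 + x)) atTop (𝓝 1) := by
      have h4 : Tendsto (fun x : ℝ => (1 + x)⁻¹) atTop (𝓝 0) :=
        (tendsto_atTop_add_const_left _ 1 tendsto_id).inv_tendsto_atTop
      have h5 : Tendsto (fun x : ℝ => √(1 - (1 + x)⁻¹) - √((1 + x)⁻¹)) atTop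
          (𝓝 (√(1 - 0) - √0)) := (tendsto_const_nhds.sub h4).sqrt.sub h4.sqrt
      simp only [sub_zero, Real.sqrt_one, Real.sqrt_zero] at h5
      refine h5.congr' ?_
      filter_upwards [eventually_gt_atTop 0] with x hx
      have h6 : (1 + x) ≠ 0 := by positivity
      have h7 : 1 - (1 + x)⁻¹ = x / (1 + x) := by field_simp; ring
      rw [h7, Real.sqrt_div hx.le, Real.sqrt_inv]
      ring
    exact ((((Real.continuous_arsinh.tendsto _).comp h1).const_mul _).add (h3.const_mul 2))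
  rw [lint_deriv hc hd hg ht]
  congr 1
  simp
  ring

end Pool.Agent.Helper190H
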