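import Pool.Agent.Helper190H.Int

open MeasureTheory Set Filter Topology NNReal ENNReal

namespace Pool.Agent.Helper190H

theorem ceil_of_mem {n : ℕ} {x : ℝ} (hx : x ∈ Ioc (n : ℝ) (n + 1)) : ⌈x⌉₊ = n + 1 := by
  rw [Nat.ceil_eq_iff (Nat.succ_ne_zero n)]
  refine ⟨by simpa using hx.1, by push_cast; exact hx.2⟩

theorem union_Ioc : (⋃ n : ℕ, Ioc (n : ℝ) (n + 1)) = Ioi (0 : ℝ) := by
  ext x
  simp only [mem_iUnion, mem_Ioi]
  constructor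
  · rintro ⟨n, hn⟩
    exact lt_of_le_of_lt (Nat.cast_nonneg n) hn.1
  · intro hx
    have h1 : 0 < ⌈x⌉₊ := Nat.ceil_pos.2 hx
    refine ⟨⌈x⌉₊ - 1, ?_, ?_⟩
    · have := Nat.ceil_lt_add_one hx.le
      rw [Nat.cast_sub h1]
      push_cast
      linarith
    · rw [Nat.cast_sub h1]
      push_cast
      have := Nat.le_ceil x
      linarith

theorem lint_step (H : ℝ → ℝ≥0∞) (c : ℕ → ℝ≥0∞)
    (h : ∀ n : ℕ, ∀ x ∈ Ioc (n : ℝ) (n + 1), H x = c n) : ∫⁻ x, H x ∂mu = ∑' n, c n := by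
  unfold mu
  rw [← union_Ioc, lintegral_iUnion (fun n => measurableSet_Ioc)]
  · refine tsum_congr fun n => ?_
    rw [setLIntegral_congr_fun measurableSet_Ioc (h n), setLIntegral_const, Real.volume_Ioc]
    simp
  · intro i j hij
    refine Set.disjoint_left.2 fun x hx hx' => hij ?_
    have h1 := ceil_of_mem hx
    have h2 := ceil_of_mem hx'
    omega

/-- The step function of a sequence. -/
noncomputable def stepf (a : ℕ → ℝ≥0) (x : ℝ) : ℝ≥0 := a (⌈x⌉₊ - 1)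

theorem stepf_of_mem (a : ℕ → ℝ≥0) {n : ℕ} {x : ℝ} (hx : x ∈ Ioc (n : ℝ) (n + 1)) :
    stepf a x = a n := by
  unfold stepf
  rw [ceil_of_mem hx, Nat.add_sub_cancel]

theorem measurable_stepf (a : ℕ → ℝ≥0) : Measurable (stepf a) :=
  (Measurable.of_discrete (f := fun n : ℕ => a (n - 1))).comp Nat.measurable_ceil

theorem norm_stepf (a : ℕ → ℝ≥0) :
    ∫⁻ x, (stepf a x : ℝ≥0∞) ^ (4 / 3 : ℝ) ∂mu = ∑' n, (a n : ℝ≥0∞) ^ (4 / 3 : ℝ) :=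
  lint_step _ _ fun n x hx => by rw [stepf_of_mem a hx]

theorem series_le (a b : ℕ → ℝ≥0) :
    ∑' m : ℕ, ∑' n : ℕ, (a m : ℝ≥0∞) * b n *
        ENNReal.ofReal ((((m : ℝ) + 1) + ((n : ℝ) + 1)) ^ (-(1 / 2) : ℝ)) ≤
      ∫⁻ x, ∫⁻ y, (stepf a x : ℝ≥0∞) * stepf b y *
        ENNReal.ofReal ((x + y) ^ (-(1 / 2) : ℝ)) ∂mu ∂mu := by
  have e : ∫⁻ x, ∫⁻ y, (stepf a x : ℝ≥0∞) * stepf b y *
        ENNReal.ofReal (((⌈x⌉₊ : ℝ) + (⌈y⌉₊ : ℝ)) ^ (-(1 / 2) : ℝ)) ∂mu ∂mu =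
      ∑' m : ℕ, ∑' n : ℕ, (a m : ℝ≥0∞) * b n *
        ENNReal.ofReal ((((m : ℝ) + 1) + ((n : ℝ) + 1)) ^ (-(1 / 2) : ℝ)) := by
    refine lint_step _ _ fun m x hx => lint_step _ _ fun n y hy => ?_
    rw [stepf_of_mem a hx, stepf_of_mem b hy, ceil_of_mem hx, ceil_of_mem hy]
    push_cast
    rfl
  rw [← e]
  have hpos : ∀ᵐ x ∂mu, 0 < x := ae_restrict_mem measurableSet_Ioi
  refine lintegral_mono_ae ?_
  filter_upwards [hpos] with x hx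
  refine lintegral_mono_ae ?_
  filter_upwards [hpos] with y hy
  refine mul_le_mul_right (ENNReal.ofReal_le_ofReal ?_) _
  refine Real.rpow_le_rpow_of_nonpos (by positivity) ?_ (by norm_num)
  exact add_le_add (Nat.le_ceil x) (Nat.le_ceil y)

end Pool.Agent.Helper190H
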